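import Pool.Agent.P8H10.SF.Stm

/-! # Project SF, package ANI: anisotropic forms over the 2-adic numbers -/

set_option autoImplicit false

namespace Pool.Agent.P8H69.SF

theorem key4 : ∀ x y : ZMod 4, 1 + x ^ 2 + y ^ 2 ≠ 0 := by decide

theorem key2 : ∀ x : ZMod 2, 1 + x + x ^ 2 ≠ 0 := by decide

theorem lemA (a b : ℚ_[2]) (ha : ‖a‖ ≤ 1) (hb : ‖b‖ ≤ 1) : 1 + a ^ 2 + b ^ 2 ≠ 0 := by
  intro h
  obtain ⟨A, rfl⟩ : ∃ A : ℤ_[2], (A : ℚ_[2]) = a := ⟨⟨a, ha⟩, rfl⟩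
  obtain ⟨B, rfl⟩ : ∃ B : ℤ_[2], (B : ℚ_[2]) = b := ⟨⟨b, hb⟩, rfl⟩
  have h1 : (1 : ℤ_[2]) + A ^ 2 + B ^ 2 = 0 := by
    apply PadicInt.ext
    push_cast
    exact h
  have h2 := congrArg (PadicInt.toZModPow 2) h1
  rw [map_add, map_add, map_one, map_pow, map_pow, map_zero] at h2
  exact key4 _ _ h2

theorem lemB (a : ℚ_[2]) (ha : ‖a‖ ≤ 1) : 1 + a + a ^ 2 ≠ 0 := by
  intro h
  obtain ⟨A, rfl⟩ : ∃ A : ℤ_[2], (A : ℚ_[2]) = a := ⟨⟨a, ha⟩, rfl⟩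
  have h1 : (1 : ℤ_[2]) + A + A ^ 2 = 0 := by
    apply PadicInt.ext
    push_cast
    exact h
  have h2 := congrArg PadicInt.toZMod h1
  rw [map_add, map_add, map_one, map_pow, map_zero] at h2
  exact key2 _ h2

theorem lemC (s t r : ℚ_[2]) (ht : ‖t‖ ≤ ‖s‖) (hr : ‖r‖ ≤ ‖s‖) (h : s ^ 2 + t ^ 2 + r ^ 2 = 0) :
    s = 0 ∧ t = 0 ∧ r = 0 := by
  by_cases hs : s = 0
  · rw [hs, norm_zero] at ht hr
    exact ⟨hs, norm_le_zero_iff.1 ht, norm_le_zero_iff.1 hr⟩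
  · exfalso
    have hs' : 0 < ‖s‖ := norm_pos_iff.2 hs
    refine lemA (t / s) (r / s) ?_ ?_ ?_
    · rw [norm_div, div_le_one hs']
      exact ht
    · rw [norm_div, div_le_one hs']
      exact hr
    · have : 1 + (t / s) ^ 2 + (r / s) ^ 2 = (s ^ 2 + t ^ 2 + r ^ 2) / s ^ 2 := by
        field_simp
      rw [this, h, zero_div]

theorem lemD (s t : ℚ_[2]) (ht : ‖t‖ ≤ ‖s‖) (h : s ^ 2 + s * t + t ^ 2 = 0) : s = 0 ∧ t = 0 := by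
  by_cases hs : s = 0
  · rw [hs, norm_zero] at ht
    exact ⟨hs, norm_le_zero_iff.1 ht⟩
  · exfalso
    have hs' : 0 < ‖s‖ := norm_pos_iff.2 hs
    refine lemB (t / s) ?_ ?_
    · rw [norm_div, div_le_one hs']
      exact ht
    · have : 1 + t / s + (t / s) ^ 2 = (s ^ 2 + s * t + t ^ 2) / s ^ 2 := by
        field_simp
      rw [this, h, zero_div]

theorem ani : Pool.Agent.P8H10.SF.S_ANI := by
  refine ⟨fun s t r h => ?_, fun s t h => ?_⟩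
  · rcases le_total ‖t‖ ‖s‖ with h1 | h1
    · rcases le_total ‖r‖ ‖s‖ with h2 | h2
      · exact lemC s t r h1 h2 h
      · obtain ⟨h3, h4, h5⟩ := lemC r s t h2 (h1.trans h2) (by rw [← h]; ring)
        exact ⟨h4, h5, h3⟩
    · rcases le_total ‖r‖ ‖t‖ with h2 | h2
      · obtain ⟨h3, h4, h5⟩ := lemC t s r h1 h2 (by rw [← h]; ring)
        exact ⟨h4, h3, h5⟩
      · obtain ⟨h3, h4, h5⟩ := lemC r s t (h1.trans h2) h2 (by rw [← h]; ring)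
        exact ⟨h4, h5, h3⟩
  · rcases le_total ‖t‖ ‖s‖ with h1 | h1
    · exact lemD s t h1 h
    · obtain ⟨h3, h4⟩ := lemD t s h1 (by rw [← h]; ring)
      exact ⟨h4, h3⟩

end Pool.Agent.P8H69.SF
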